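import Mathlib
import Pool.Agent.V8H99.DI.Fin

/-!
# The denominators of Weyl–Heisenberg SIC fiducials

Let `ψ` be a Weyl–Heisenberg SIC fiducial in dimension `d` and `p` a prime divisor of `d`; if `p = 3`
suppose that `d` is not `3` modulo `9`. Then the entries of the projector `ψ ψ*` in the standard basis
and in the Fourier basis (or a chirped Fourier basis) are not all integral at `p`, at any place over
`p`: the ring generated by these numbers contains `1 / p`. If `d` is even then `1 / 2` is already in
the ring generated by the entries in one basis. If `d = p ≥ 5` is a prime then for any two of the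
`p + 1` standard mutually unbiased bases `1 / p` is in the ring generated by the `2 p` outcome
probabilities. For `d = 3` the statement fails: the projector onto `(0, 1, -1) / √2` has the entries
`0, ± 1 / 2` in the standard basis and in the Fourier basis.

Proof. Suppose that all entries lie in a valuation ring whose residue field `K` has characteristic
`p`, and let `N` be the `p`-part of `d = N m`. As the roots of unity of order `N` are `1` in `K`, the
matrix `E(α) = ∑ u(i) ⊗ w(i + α)`, `i ∈ ℤ / N`, does not depend on `α`, where `u(i), w(i) ∈ K ^ m` are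
the reductions of `ψ` and `conj ψ` (up to scalars). In terms of finite differences of functions on
`ℤ / N` (which form a free module of rank one over `K[Δ] / Δ ^ N`) this means that the orders `a`, `b`
of `u`, `w` satisfy `a + b = N - 1`, so that `E` has rank one and the moments `∑ i <u(i), w(i + α)>`
and `∑ i² <u(i), w(i + α)>` are polynomials in `α` with leading coefficients `- (a + 1)` and
`(a + 1) (a + 2) / 2` (in terms of binomial coefficients, up to a factor `2`). By the four term
relations `∑ ψ(j) conj ψ(j+α) conj ψ(j+κ) ψ(j+α+κ) = 0` these moments satisfy two quadratic relations,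
of which the first gives `2 (a + 1) = 1` and the second one is then impossible for `N ≠ 3`. For
`N = 3` the purity of `E` gives `m = 1` modulo `3`. In prime dimension a fiducial whose probabilities
in two of the bases are integral has integral projectors in both.
-/

set_option autoImplicit false

namespace Pool.Agent.Results.MP_1c78a5_mp.Denominators

open Matrix
open scoped ComplexConjugate
open Pool.Agent.V8H99

variable {d : ℕ} [NeZero d]

/-- `ω ^ x` for a residue `x` modulo `d`, where `ω = exp (2 π i / d)` -/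
noncomputable def omegaPow (x : ZMod d) : ℂ :=
  Complex.exp (2 * Real.pi * Complex.I * (x.val : ℂ) / (d : ℂ))

/-- the displacement operator `X ^ a Z ^ b`, which maps `|j⟩` to `ω ^ (b j) |j + a⟩` -/
noncomputable def displacement (a b : ZMod d) : Matrix (ZMod d) (ZMod d) ℂ :=
  Matrix.of fun i j => if i = j + a then omegaPow (b * j) else 0

/-- Weyl–Heisenberg SIC fiducial vectors -/
def IsFiducial (ψ : ZMod d → ℂ) : Prop :=
  ∑ j, ‖ψ j‖ ^ 2 = 1 ∧ ∀ a b : ZMod d, (a, b) ≠ (0, 0) →
    ‖star ψ ⬝ᵥ (displacement a b *ᵥ ψ)‖ ^ 2 = 1 / ((d : ℝ) + 1)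

/-- the coefficients of `ψ` in the standard basis (`none`) and in the basis (`some c`) of the vectors
`(ω ^ (- c j ^ 2 - k j) / √d)_j`, `k ∈ ℤ / d`. For `c = 0` this is the Fourier basis. If `d` is an odd
prime then these are the standard `d + 1` mutually unbiased bases. -/
noncomputable def coeff (L : Option (ZMod d)) (ψ : ZMod d → ℂ) (k : ZMod d) : ℂ :=
  match L with
  | none => ψ k
  | some c => (∑ j, omegaPow (c * j ^ 2 + k * j) * ψ j) / (Real.sqrt d : ℂ)

/-- the entries of the projector `ψ ψ*` in these bases -/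
noncomputable def entry (L : Option (ZMod d)) (ψ : ZMod d → ℂ) (j k : ZMod d) : ℂ :=
  coeff L ψ j * conj (coeff L ψ k)

theorem omegaPow_eq (x : ZMod d) : omegaPow x = R503.SIC.e x := by
  unfold omegaPow R503.SIC.e
  rw [ZMod.stdAddChar_apply, ZMod.toCircle_apply]

theorem overlap_eq (ψ : ZMod d → ℂ) (a b : ZMod d) :
    star ψ ⬝ᵥ (displacement a b *ᵥ ψ) = R503.SIC.ov ψ a b := by
  unfold R503.SIC.ov
  have h1 : ∀ i, (displacement a b *ᵥ ψ) i = omegaPow (b * (i - a)) * ψ (i - a) := by
    intro i
    rw [Matrix.mulVec, dotProduct, Finset.sum_eq_single (i - a)]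
    · simp [displacement]
    · intro j _ hj
      simp only [displacement, Matrix.of_apply]
      rw [if_neg (fun h => hj (by rw [h]; ring)), zero_mul]
    · intro h; exact absurd (Finset.mem_univ _) h
  rw [dotProduct]
  refine Fintype.sum_equiv (Equiv.subRight a) _ _ fun i => ?_
  rw [h1, omegaPow_eq, Pi.star_apply]
  simp

theorem isFiducial_iff (ψ : ZMod d → ℂ) : IsFiducial ψ ↔ R503.SIC.Fid ψ := by
  unfold IsFiducial R503.SIC.Fid
  simp only [overlap_eq]

theorem coeff_some (c : ZMod d) (ψ : ZMod d → ℂ) (k : ZMod d) :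
    coeff (some c) ψ k = DI.amp c ψ k := by
  rw [DI.amp_eq]
  unfold coeff
  simp only [omegaPow_eq]

theorem entry_none (ψ : ZMod d → ℂ) (j k : ZMod d) : entry none ψ j k = DI.Pr ψ j k := rfl

theorem entry_some (c : ZMod d) (ψ : ZMod d → ℂ) (j k : ZMod d) :
    entry (some c) ψ j k = DI.Pr (DI.amp c ψ) j k := by
  unfold entry DI.Pr
  rw [coeff_some, coeff_some]

theorem prob_aux (hd : d.Prime) (hd5 : 5 ≤ d) {ψ : ZMod d → ℂ} (h : R503.SIC.Fid ψ)
    (O : ValuationSubring ℂ) (hpO : (d : ℂ) ∈ O.nonunits) {L L' : Option (ZMod d)} (hL : L ≠ L')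
    (h1 : ∀ j, ((‖coeff L ψ j‖ ^ 2 : ℝ) : ℂ) ∈ O) (h2 : ∀ j, ((‖coeff L' ψ j‖ ^ 2 : ℝ) : ℂ) ∈ O) :
    False := by
  rcases L with _ | c
  · rcases L' with _ | c'
    · exact hL rfl
    · exact DI.no_prob_none hd hd5 h O hpO c' h1 fun j => by
        rw [← coeff_some]
        exact h2 j
  · rcases L' with _ | c'
    · exact DI.no_prob_none hd hd5 h O hpO c h2 fun j => by
        rw [← coeff_some]
        exact h1 j
    · refine DI.no_prob_some hd hd5 h O hpO (c := c) (c' := c') (fun hc => hL (by rw [hc]))
        (fun j => ?_) (fun j => ?_)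
      · rw [← coeff_some]
        exact h1 j
      · rw [← coeff_some]
        exact h2 j

/-- **The denominators of Weyl–Heisenberg SIC fiducials.** (1) Let `ψ` be a fiducial in dimension `d`
and `p` a prime divisor of `d`, where `d` is not `3` modulo `9` if `p = 3`. Then for every `c` the ring
generated by the entries of `ψ ψ*` in the standard basis and in the basis `some c` contains `1 / p`.
(2) If `d` is even then for each of the bases the ring generated by the entries of `ψ ψ*` in this
basis contains `1 / 2`. (3) If `d = p ≥ 5` is a prime and `L ≠ L'` are two of the `p + 1` bases then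
the ring generated by the probabilities `|coeff L ψ j|²`, `|coeff L' ψ j|²` contains `1 / p`. (4) For
`d = 3` there is a fiducial such that the ring generated by the entries of `ψ ψ*` in the standard
basis and in the Fourier basis does not contain `1 / 3`. -/
theorem result :
    (∀ (d : ℕ) [NeZero d] (ψ : ZMod d → ℂ), IsFiducial ψ → ∀ p : ℕ, p.Prime → p ∣ d →
      (p = 3 → d % 9 ≠ 3) → ∀ c : ZMod d, (1 / (p : ℂ)) ∈
        Subring.closure {z : ℂ | ∃ j k, z = entry none ψ j k ∨ z = entry (some c) ψ j k}) ∧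
    (∀ (d : ℕ) [NeZero d] (ψ : ZMod d → ℂ), IsFiducial ψ → 2 ∣ d → ∀ L : Option (ZMod d),
      (1 / 2 : ℂ) ∈ Subring.closure {z : ℂ | ∃ j k, z = entry L ψ j k}) ∧
    (∀ (p : ℕ) [Fact p.Prime], 5 ≤ p → ∀ ψ : ZMod p → ℂ, IsFiducial ψ →
      ∀ L L' : Option (ZMod p), L ≠ L' → (1 / (p : ℝ)) ∈
        Subring.closure {x : ℝ | ∃ j, x = ‖coeff L ψ j‖ ^ 2 ∨ x = ‖coeff L' ψ j‖ ^ 2}) ∧
    (∃ ψ : ZMod 3 → ℂ, IsFiducial ψ ∧ (1 / 3 : ℂ) ∉
      Subring.closure {z : ℂ | ∃ j k, z = entry none ψ j k ∨ z = entry (some 0) ψ j k}) := by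
  refine ⟨?_, ?_, ?_, ?_⟩
  · intro d _ ψ hψ p hp hpd h3 c
    refine DI.inv_mem hp fun O hO hS => ?_
    have h1 := DI.no_integral_chirp ((isFiducial_iff ψ).1 hψ) hp hpd O hO c
      (fun i j => hS _ ⟨i, j, Or.inl rfl⟩)
      (fun i j => by rw [← entry_some]; exact hS _ ⟨i, j, Or.inr rfl⟩)
    exact h3 h1.1 h1.2
  · intro d _ ψ hψ hd L
    have h0 := (isFiducial_iff ψ).1 hψ
    have h1 := DI.inv_mem (S := {z : ℂ | ∃ j k, z = entry L ψ j k}) Nat.prime_two fun O hO hS => by
      rcases L with _ | c
      · exact DI.no_integral_two hd h0 O hO fun i j => hS _ ⟨i, j, rfl⟩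
      · exact DI.no_integral_two hd (DI.fid_Ft (DI.fid_chirp c h0)) O hO fun i j => by
          have := hS _ ⟨i, j, rfl⟩
          rw [entry_some] at this
          exact this
    rw [Nat.cast_ofNat] at h1
    exact h1
  · intro p hp hp5 ψ hψ L L' hL
    have hpp : p.Prime := hp.out
    have h0 := (isFiducial_iff ψ).1 hψ
    set S : Set ℝ := {x : ℝ | ∃ j, x = ‖coeff L ψ j‖ ^ 2 ∨ x = ‖coeff L' ψ j‖ ^ 2} with hS
    have h1 := DI.inv_mem (S := Complex.ofRealHom '' S) hpp fun O hO hSO => by
      refine prob_aux hpp hp5 h0 O hO hL (fun j => ?_) (fun j => ?_)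
      · exact hSO _ ⟨_, ⟨j, Or.inl rfl⟩, rfl⟩
      · exact hSO _ ⟨_, ⟨j, Or.inr rfl⟩, rfl⟩
    rw [← RingHom.map_closure] at h1
    obtain ⟨x, hx, hx2⟩ := h1
    have h2 : x = 1 / (p : ℝ) := by
      have : (x : ℂ) = ((1 / (p : ℝ) : ℝ) : ℂ) := by
        rw [show (x : ℂ) = Complex.ofRealHom x from rfl, hx2]
        push_cast
        rfl
      exact_mod_cast this
    rw [← h2]
    exact hx
  · refine ⟨DI.hesse, (isFiducial_iff _).2 DI.fid_hesse, DI.third_not_mem ?_⟩
    rintro z ⟨j, k, rfl | rfl⟩
    · exact DI.entries_pos j k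
    · rw [entry_some]
      exact DI.entries_mom j k

end Pool.Agent.Results.MP_1c78a5_mp.Denominators
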