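import Mathlib
import Pool.Agent.V8H99.SL.Main

/-!
# Weyl–Heisenberg SIC fiducials with three values exist only in the prime dimensions 2, 3, 7, 19

Let `p` be a prime and `ψ ∈ ℂ ^ p` a Weyl–Heisenberg SIC fiducial which is invariant under the
multiplication of the indices by squares, that is, `ψ j` depends only on whether `j` is zero, a
nonzero square or a nonsquare modulo `p`. Then `p` is `2`, `3`, `7` or `19`. (In dimension `2` and `3`
every vector has this invariance; the fiducials of this kind in dimension `7` and `19` are due to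
Appleby.)

Proof. If `-1` is a square then `ψ` is even, which is impossible for `p ≥ 5`. Let `-1` be a nonsquare,
`ψ j = g₀ + g₁ χ(j)` for `j ≠ 0`. For a square `u ≠ 1` the four term relation
`∑ ψ(j) conj ψ(j+1) conj ψ(j+u) ψ(j+1+u) = 0` has, after the cancellation of the sums with three
characters, the form `|g₁|⁴ E(u) + F(χ(1+u)) = 0`, where
`E(u) = ∑ χ(j) χ(j+1) χ(j+u) χ(j+1+u)` is the trace of an elliptic curve. So `E(u)` depends only on
`χ(1+u)`. Modulo `p` one has `E(u) + 1 = - ∑ C(m,i)² u^(2i)` with `m = (p-1)/2`, and comparing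
coefficients, `C(m,s)² + B C(m,2s)` is the same for `1 ≤ s ≤ (m-1)/2`. As `m = -1/2` modulo `p`, this
gives `14 + 13 B = 0 = 44 + 49 B` for `m ≥ 7`, so `p` divides `114 = 2·3·19`. The remaining prime
`p = 11` is excluded by solving the equations.
-/

set_option autoImplicit false

namespace Pool.Agent.Results.MP_1c78a5_mp.InvariantUnderSquares

open Matrix

variable {d : ℕ} [NeZero d]

/-- `ω ^ x` for a residue `x` modulo `d`, where `ω = exp (2 π i / d)` -/
noncomputable def omegaPow (x : ZMod d) : ℂ :=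
  Complex.exp (2 * Real.pi * Complex.I * (x.val : ℂ) / (d : ℂ))

/-- the displacement operator `X ^ a Z ^ b`, which maps `|j⟩` to `ω ^ (b j) |j + a⟩` -/
noncomputable def displacement (a b : ZMod d) : Matrix (ZMod d) (ZMod d) ℂ :=
  Matrix.of fun i j => if i = j + a then omegaPow (b * j) else 0

/-- Weyl–Heisenberg SIC fiducial vectors -/
def IsFiducial (ψ : ZMod d → ℂ) : Prop :=
  ∑ j, ‖ψ j‖ ^ 2 = 1 ∧ ∀ a b : ZMod d, (a, b) ≠ (0, 0) →
    ‖star ψ ⬝ᵥ (displacement a b *ᵥ ψ)‖ ^ 2 = 1 / ((d : ℝ) + 1)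

theorem omegaPow_eq (x : ZMod d) : omegaPow x = R503.SIC.e x := by
  unfold omegaPow R503.SIC.e
  rw [ZMod.stdAddChar_apply, ZMod.toCircle_apply]

theorem overlap_eq (ψ : ZMod d → ℂ) (a b : ZMod d) :
    star ψ ⬝ᵥ (displacement a b *ᵥ ψ) = R503.SIC.ov ψ a b := by
  unfold R503.SIC.ov
  have h1 : ∀ i, (displacement a b *ᵥ ψ) i = omegaPow (b * (i - a)) * ψ (i - a) := by
    intro i
    rw [Matrix.mulVec, dotProduct, Finset.sum_eq_single (i - a)]
    · simp [displacement]
    · intro j _ hj
      simp only [displacement, Matrix.of_apply]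
      rw [if_neg (fun h => hj (by rw [h]; ring)), zero_mul]
    · intro h; exact absurd (Finset.mem_univ _) h
  rw [dotProduct]
  refine Fintype.sum_equiv (Equiv.subRight a) _ _ fun i => ?_
  rw [h1, omegaPow_eq, Pi.star_apply]
  simp

theorem isFiducial_iff (ψ : ZMod d → ℂ) : IsFiducial ψ ↔ R503.SIC.Fid ψ := by
  unfold IsFiducial R503.SIC.Fid
  simp only [overlap_eq]

/-- **Fiducials invariant under the multiplication by squares.** Let `p` be a prime and `ψ ∈ ℂ ^ p` a
Weyl–Heisenberg SIC fiducial with `ψ (a² j) = ψ j` for all `a ≠ 0` and all `j`. Then `p` is `2`, `3`,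
`7` or `19`. -/
theorem result (p : ℕ) [Fact p.Prime] (ψ : ZMod p → ℂ) (h : IsFiducial ψ)
    (hsq : ∀ a j : ZMod p, a ≠ 0 → ψ (a ^ 2 * j) = ψ j) : p = 2 ∨ p = 3 ∨ p = 7 ∨ p = 19 := by
  have hf := (isFiducial_iff ψ).1 h
  have hp : p.Prime := Fact.out
  have hsq' : ∀ a j : ZMod p, a ≠ 0 → ψ (a * a * j) = ψ j := fun a j ha => by
    rw [← sq]; exact hsq a j ha
  by_contra hcon
  push Not at hcon
  obtain ⟨h2, h3, h7, h19⟩ := hcon
  have hodd : p % 2 = 1 := (hp.eq_two_or_odd).resolve_left h2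
  have h2le := hp.two_le
  rcases (show p % 4 = 1 ∨ p % 4 = 3 by omega) with h4 | h4
  · obtain ⟨i, hi⟩ := (ZMod.exists_sq_eq_neg_one_iff (p := p)).2 (by omega)
    have hi0 : i ≠ 0 := by
      rintro rfl
      rw [mul_zero] at hi
      exact one_ne_zero (neg_eq_zero.1 hi)
    refine V8H99.SL.no_even (by omega) hf fun j => ?_
    have := hsq' i j hi0
    rw [← hi, neg_one_mul] at this
    exact this
  · exact V8H99.SL.main3 h4 (by omega) h19 hf hsq'

end Pool.Agent.Results.MP_1c78a5_mp.InvariantUnderSquares
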