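import Mathlib
import Pool.Agent.V8H99.NF.All
import Pool.Agent.V8H99.NF.Spec

/-!
# Near-fiducials for the Weyl–Heisenberg group

In every dimension `d` there is a unit vector all of whose overlaps with its Weyl–Heisenberg
translates are, up to an absolute constant factor, at most the value `1 / (d + 1)` of a SIC. If `d` is
a prime or `d + 1` is a prime power, there is a unit vector all of whose overlaps are
`(1 + O(d ^ (-1/4))) / (d + 1)`, so that the Weyl–Heisenberg orbit is asymptotically a SIC.

Proof for general `d`. Take a prime `16 d < P ≤ 32 d`, two smooth windows `w₁, w₂` on the circle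
`ℤ / d` with `w₁² + w₂² = 1`, and the vector `w₁ e(n³ / P) + w₂ e((n³ + 7 d n²) / P)`. All correlations
are sums over an interval of quadratic phases modulo `P` with nonzero quadratic coefficient and a
Lipschitz weight; by completion and a Sobolev inequality they are `O(√P)`, without logarithm. For
`d = p` a prime the vectors of Alltop, and for `d = q - 1` the vectors `n ↦ ψ(g ^ n)`, `ψ` an additive
character and `g` a primitive element of the field with `q` elements, have all overlaps of the right
size with the exception of those on one or two lines, which are corrected by adding small multiples of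
a basis vector and of its Fourier transform.
-/

set_option autoImplicit false

namespace Pool.Agent.Results.MP_1c78a5_mp.NearFiducials

open Matrix

variable {d : ℕ} [NeZero d]

/-- `ω ^ x` for a residue `x` modulo `d`, where `ω = exp (2 π i / d)` -/
noncomputable def omegaPow (x : ZMod d) : ℂ :=
  Complex.exp (2 * Real.pi * Complex.I * (x.val : ℂ) / (d : ℂ))

/-- the displacement operator `X ^ a Z ^ b`, which maps `|j⟩` to `ω ^ (b j) |j + a⟩` -/
noncomputable def displacement (a b : ZMod d) : Matrix (ZMod d) (ZMod d) ℂ :=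
  Matrix.of fun i j => if i = j + a then omegaPow (b * j) else 0

/-- unit vectors of `ℂ ^ d` -/
def IsUnitVector (ψ : ZMod d → ℂ) : Prop := ∑ j, ‖ψ j‖ ^ 2 = 1

/-- `|⟨ψ, X ^ a Z ^ b ψ⟩| ^ 2` -/
noncomputable def overlapSq (ψ : ZMod d → ℂ) (a b : ZMod d) : ℝ :=
  ‖star ψ ⬝ᵥ (displacement a b *ᵥ ψ)‖ ^ 2

theorem omegaPow_eq (x : ZMod d) : omegaPow x = R503.SIC.e x := by
  unfold omegaPow R503.SIC.e
  rw [ZMod.stdAddChar_apply, ZMod.toCircle_apply]

theorem overlap_eq (ψ : ZMod d → ℂ) (a b : ZMod d) :
    star ψ ⬝ᵥ (displacement a b *ᵥ ψ) = R503.SIC.ov ψ a b := by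
  unfold R503.SIC.ov
  have h1 : ∀ i, (displacement a b *ᵥ ψ) i = omegaPow (b * (i - a)) * ψ (i - a) := by
    intro i
    rw [Matrix.mulVec, dotProduct, Finset.sum_eq_single (i - a)]
    · simp [displacement]
    · intro j _ hj
      simp only [displacement, Matrix.of_apply]
      rw [if_neg (fun h => hj (by rw [h]; ring)), zero_mul]
    · intro h; exact absurd (Finset.mem_univ _) h
  rw [dotProduct]
  refine Fintype.sum_equiv (Equiv.subRight a) _ _ fun i => ?_
  rw [h1, omegaPow_eq, Pi.star_apply]
  simp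

/-- **Near-fiducials.** (1) In every dimension `d` there is a unit vector `ψ` with
`|⟨ψ, X ^ a Z ^ b ψ⟩| ^ 2 ≤ C / (d + 1)` for all `(a, b) ≠ (0, 0)`, with an absolute constant `C`.
(2) If `d` is a prime or `d + 1` is a prime power, there is a unit vector `ψ` such that
`(d + 1) |⟨ψ, X ^ a Z ^ b ψ⟩| ^ 2` differs from `1` by at most `C d ^ (-1/4)` for all
`(a, b) ≠ (0, 0)`. -/
theorem result :
    (∃ C : ℝ, ∀ (d : ℕ) [NeZero d], ∃ ψ : ZMod d → ℂ, IsUnitVector ψ ∧
      ∀ a b : ZMod d, (a, b) ≠ (0, 0) → overlapSq ψ a b ≤ C / ((d : ℝ) + 1)) ∧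
    (∃ C : ℝ, ∀ (d : ℕ) [NeZero d], d.Prime ∨ IsPrimePow (d + 1) →
      ∃ ψ : ZMod d → ℂ, IsUnitVector ψ ∧ ∀ a b : ZMod d, (a, b) ≠ (0, 0) →
        |((d : ℝ) + 1) * overlapSq ψ a b - 1| ≤ C * (d : ℝ) ^ (-(1 / 4) : ℝ)) := by
  unfold overlapSq IsUnitVector
  simp only [overlap_eq]
  exact ⟨⟨10 ^ 9, fun d _ => V8H99.NF.near_all⟩, ⟨50 * 10 ^ 5, fun d _ h => V8H99.NF.near_special h⟩⟩

end Pool.Agent.Results.MP_1c78a5_mp.NearFiducials
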