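import Mathlib
import Pool.Agent.V8H71.PM.Main

/-!
# The phases of Weyl–Heisenberg SIC fiducials modulo prime ideals

Let `ψ ∈ ℂ ^ d` be a Weyl–Heisenberg SIC fiducial. For residues `c, b` modulo `d` let
`phase ψ c b = √(d + 1) ω ^ (c b) ⟨ψ, X ^ (2 c) Z ^ b ψ⟩`, a complex number of absolute value one for
`(2 c, b) ≠ (0, 0)`. For odd `d` these are, up to a root of unity of order `d`, all the phases of the
overlaps of `ψ`, normalised in the usual way (the displacement operator `ω ^ (c b) X ^ (2 c) Z ^ b`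
is inverse to the one with the indices `-c, -b`). In the known fiducials the phases are algebraic
integers (conjecturally always so). We study the phases modulo a prime ideal `I` of a ring `R ⊂ ℂ`
that contains them and the roots of unity of order `d`.

(1) Let `d ∉ I`. Call `c` with `2 c ≠ 0` flat if `phase ψ c b` modulo `I` does not depend on `b`. Then
the flat `c` contain no three distinct terms `x, z, y` with `x + y = 2 z`; in particular their number
is at most the Roth number of `d`, which is `o(d)`.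

(2) Let `d ≥ 5` be odd and suppose that all the phases are congruent to each other modulo `I`. Then
`I` contains a prime number `l`, `d = l ^ a r` with `l ∤ r` and `r < l ^ a`, and `√(d + 1)` is
congruent to the phases modulo `I`.

(3) Let `d ≥ 5` be odd, `l` a prime number, `ε = ±1` and suppose that `(phase ψ c b - ε) ^ m / l` is an
algebraic integer for all `c, b`. Then `ε = -1` and `d = l ^ a (l ^ a - 2)` for some `a`.

(4) The same conclusion if all the numbers `ε phase ψ c b` are roots of unity of order a power of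
`l`.

Proof. The entries `C i j = d √(d+1) conj(ψ i) ψ j` are the Fourier coefficients of the phases on a
line and satisfy `C i j C k l = C i l C k j`. Modulo `I` the entries of a flat line vanish except one
which is a unit; this excludes progressions of flat lines. If all the phases are congruent to `ε`
modulo `I` then all the `C i j`, `i ≠ j`, vanish modulo `I`, so `d ∈ I` by (1) and `√(d+1) ≡ ε`.
Writing the Weyl–Heisenberg group of order `d = l ^ a r` as a product, the operators
`∑ conj(phase) D` over the subgroup of order `l ^ a` have rank at most `r` after a partial trace, whereas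
modulo `I` they have rank `l ^ a`; this gives `r ≤ l ^ a`. Finally if `(√(d+1) - ε) ^ m / l` is an
algebraic integer and `l ∣ d` is odd, then `√(d+1)` is an integer.
-/

set_option autoImplicit false

namespace Pool.Agent.Results.MP_1c78a5_mp.PhasesModuloPrimes

open Matrix

variable {d : ℕ} [NeZero d]

/-- `ω ^ x` for a residue `x` modulo `d`, where `ω = exp (2 π i / d)` -/
noncomputable def omegaPow (x : ZMod d) : ℂ :=
  Complex.exp (2 * Real.pi * Complex.I * (x.val : ℂ) / (d : ℂ))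

/-- the displacement operator `X ^ a Z ^ b`, which maps `|j⟩` to `ω ^ (b j) |j + a⟩` -/
noncomputable def displacement (a b : ZMod d) : Matrix (ZMod d) (ZMod d) ℂ :=
  Matrix.of fun i j => if i = j + a then omegaPow (b * j) else 0

/-- Weyl–Heisenberg SIC fiducial vectors -/
def IsFiducial (ψ : ZMod d → ℂ) : Prop :=
  ∑ j, ‖ψ j‖ ^ 2 = 1 ∧ ∀ a b : ZMod d, (a, b) ≠ (0, 0) →
    ‖star ψ ⬝ᵥ (displacement a b *ᵥ ψ)‖ ^ 2 = 1 / ((d : ℝ) + 1)

/-- the phase of the overlap `⟨ψ, ω ^ (c b) X ^ (2 c) Z ^ b ψ⟩` -/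
noncomputable def phase (ψ : ZMod d → ℂ) (c b : ZMod d) : ℂ :=
  (Real.sqrt ((d : ℝ) + 1) : ℂ) *
    (omegaPow (c * b) * (star ψ ⬝ᵥ (displacement (2 * c) b *ᵥ ψ)))

/-- the number `z` belongs to the ideal `I` of the subring `R` of `ℂ` -/
def InIdeal {R : Subring ℂ} (I : Ideal R) (z : ℂ) : Prop := ∃ w ∈ I, (w : ℂ) = z

/-- the residues `c` with `2 c ≠ 0` for which `phase ψ c b` does not depend on `b` modulo `I` -/
def flat {R : Subring ℂ} (I : Ideal R) (ψ : ZMod d → ℂ) : Set (ZMod d) :=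
  {c | 2 * c ≠ 0 ∧ ∀ b, InIdeal I (phase ψ c b - phase ψ c 0)}

theorem omegaPow_eq (x : ZMod d) : omegaPow x = R503.SIC.e x := by
  unfold omegaPow R503.SIC.e
  rw [ZMod.stdAddChar_apply, ZMod.toCircle_apply]

theorem overlap_eq (ψ : ZMod d → ℂ) (a b : ZMod d) :
    star ψ ⬝ᵥ (displacement a b *ᵥ ψ) = R503.SIC.ov ψ a b := by
  unfold R503.SIC.ov
  have h1 : ∀ i, (displacement a b *ᵥ ψ) i = omegaPow (b * (i - a)) * ψ (i - a) := by
    intro i
    rw [Matrix.mulVec, dotProduct, Finset.sum_eq_single (i - a)]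
    · simp [displacement]
    · intro j _ hj
      simp only [displacement, Matrix.of_apply]
      rw [if_neg (fun h => hj (by rw [h]; ring)), zero_mul]
    · intro h; exact absurd (Finset.mem_univ _) h
  rw [dotProduct]
  refine Fintype.sum_equiv (Equiv.subRight a) _ _ fun i => ?_
  rw [h1, omegaPow_eq, Pi.star_apply]
  simp

theorem isFiducial_iff (ψ : ZMod d → ℂ) : IsFiducial ψ ↔ R503.SIC.Fid ψ := by
  unfold IsFiducial R503.SIC.Fid
  simp only [overlap_eq]

theorem phase_eq (ψ : ZMod d → ℂ) (c b : ZMod d) : phase ψ c b = V8H71.PM.ph ψ c b := by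
  unfold phase V8H71.PM.ph V8H71.PM.sq
  rw [overlap_eq, omegaPow_eq]

theorem mem_flat {R : Subring ℂ} (I : Ideal R) (ψ : ZMod d → ℂ) (c : ZMod d) :
    c ∈ flat I ψ ↔ V8H71.PM.Flat I ψ c := by
  unfold flat V8H71.PM.Flat
  simp only [phase_eq]
  exact Iff.rfl

/-- **Phases of Weyl–Heisenberg SIC fiducials modulo primes.** -/
theorem result (d : ℕ) [NeZero d] (ψ : ZMod d → ℂ) (h : IsFiducial ψ) :
    (∀ (R : Subring ℂ) (I : Ideal R), I.IsPrime → (∀ x : ZMod d, omegaPow x ∈ R) →
      (∀ c b : ZMod d, 2 * c ≠ 0 → phase ψ c b ∈ R) → (d : R) ∉ I →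
      (∀ x ∈ flat I ψ, ∀ y ∈ flat I ψ, ∀ z ∈ flat I ψ, x + y = 2 * z → x = y) ∧
        (flat I ψ).ncard ≤ rothNumberNat d) ∧
    (Odd d → 5 ≤ d → ∀ (R : Subring ℂ) (I : Ideal R), I.IsPrime → (∀ x : ZMod d, omegaPow x ∈ R) →
      (∀ c b : ZMod d, phase ψ c b ∈ R) →
      (∀ c b c' b' : ZMod d, (c, b) ≠ (0, 0) → (c', b') ≠ (0, 0) →
        InIdeal I (phase ψ c b - phase ψ c' b')) →
      ∃ l a r : ℕ, l.Prime ∧ (l : R) ∈ I ∧ d = l ^ a * r ∧ ¬ l ∣ r ∧ r < l ^ a ∧
        InIdeal I ((Real.sqrt ((d : ℝ) + 1) : ℂ) - phase ψ 0 1)) ∧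
    (Odd d → 5 ≤ d → ∀ (l m : ℕ) (ε : ℤ), l.Prime → ε = 1 ∨ ε = -1 →
      (∀ c b : ZMod d, (c, b) ≠ (0, 0) → IsIntegral ℤ ((phase ψ c b - ε) ^ m / l)) →
      ε = -1 ∧ ∃ a : ℕ, d = l ^ a * (l ^ a - 2)) ∧
    (Odd d → 5 ≤ d → ∀ (l : ℕ) (ε : ℤ), l.Prime → ε = 1 ∨ ε = -1 →
      (∀ c b : ZMod d, (c, b) ≠ (0, 0) → ∃ k : ℕ, (ε * phase ψ c b) ^ l ^ k = 1) →
      ε = -1 ∧ ∃ a : ℕ, d = l ^ a * (l ^ a - 2)) := by
  classical
  have hf := (isFiducial_iff ψ).1 h
  simp only [phase_eq, omegaPow_eq]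
  refine ⟨?_, ?_, ?_, ?_⟩
  · intro R I hI hω hR hd
    have hd' : ¬ V8H71.PM.InI I (d : ℂ) := by
      rintro ⟨w, hw, hw2⟩
      apply hd
      have h1 : w = (d : R) := Subtype.ext (by rw [hw2]; push_cast; rfl)
      rwa [h1] at hw
    refine ⟨fun x hx y hy z hz hxyz => ?_, ?_⟩
    · rw [mem_flat] at hx hy hz
      exact V8H71.PM.no_ap hf hω hR hd' hx hy hz hxyz
    · have h1 := V8H71.PM.card_flat hf hω hR hd'
      have h2 : flat I ψ =
          ((Finset.univ.filter fun c : ZMod d => V8H71.PM.Flat I ψ c : Finset (ZMod d)) :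
            Set (ZMod d)) := by
        ext c
        rw [mem_flat]
        simp
      rw [h2, Set.ncard_coe_finset]
      convert h1
  · intro hodd h5 R I hI hω hR hcong
    exact V8H71.PM.main_prime hodd h5 hf hI hω hR hcong
  · intro hodd h5 l m ε hl hε hm
    exact V8H71.PM.rad hodd h5 hf hl hε hm
  · intro hodd h5 l ε hl hε hk
    exact V8H71.PM.roots hodd h5 hf hl hε hk

end Pool.Agent.Results.MP_1c78a5_mp.PhasesModuloPrimes
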